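import Pool.Agent.N214.GP.Main
import Pool.Agent.N993.ThreeP

/-!
# The Grothendieck period conjecture for algebraic cycles on Fermat varieties

Let `X` be the Fermat variety of degree `m` and dimension `n` over the field of algebraic numbers. Its
primitive cohomology is the sum of the lines `V(s)` of the characters `s = (a_0, …, a_(n+1))`, nonzero
residues modulo `m` with sum zero. The line `V(s)` is defined over `ℚ(ζ_m)` in the Betti cohomology
and over the field of algebraic numbers in the de Rham cohomology, and the quotient of generators of
the two structures is, up to an algebraic number, the product of the numbers `Γ(⟨a_i⟩ / m)`, divided by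
a power of `2 π i` (Deligne, Hodge cycles on abelian varieties, 7.12 - 7.15). If `n = 2 k`, a class of
`H^(2k)_dR(X) ∩ H^(2k)(X, ℚ(k))` has its components in the lines `V(s)`; if the component in `V(s)` is
not zero, then neither are those in the conjugate lines `V(u s)`, `u` a unit modulo `m`, and all the
products of the numbers `Γ(⟨u a_i⟩ / m) ^ 2 / π` are algebraic: `s` is a *de Rham-Betti character*
(`IsDeRhamBetti`).

Two theorems on the periods of abelian varieties of CM type are used; in the theorem they are
assumptions on the numbers `P Φ u`. Here `Φ` is a CM type of `ℚ(ζ_m)`, and `P Φ u` is a nonzero period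
(integral over a rational cycle) of the abelian variety `A_Φ` with complex multiplication of type `Φ`,
of a differential form of the second kind over the algebraic numbers on which the units of `ℚ(ζ_m)`
act through the embedding with the index `u`.
* `Deligne`: Hodge classes on abelian varieties are absolute Hodge classes. The function `excess m e`
  describes the Hodge type of the (virtual) motive over `ℚ(ζ_m)` with the period `period m e`, a
  product of the numbers `Γ(⟨u a⟩ / m) ^ 2 / π`, which lies in the cohomology of products of Fermat
  curves; if it is `N` times the difference of the types `Φ` and `Ψ`, the period is an algebraic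
  multiple of the corresponding root of a power of `P Ψ u / P Φ u`.
* `Wustholz`: the quotients `P Φ u / P Ψ u`, `Φ ≠ Ψ`, are transcendental (by the analytic subgroup
  theorem, an algebraic quotient comes from a homomorphism of abelian varieties that respects the
  eigenspaces; so `Φ = Ψ`).

The theorem:
1. If all the conjugates of a product of gamma values at rational numbers of denominator `m` are
   algebraic up to the power of `π`, then the relation is one of those of Deligne: the excess vanishes
   at all units.
2. De Rham-Betti characters are the same as Hodge characters (one direction is Deligne's theorem).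
3. If `m ≤ 86`, or `m` satisfies `MutualSquares` (for instance, if no prime factor of `m` is `1` modulo
   `4`), or `m` satisfies `ThreePrimes` (at most three odd prime factors, at most two if `4` divides
   `m`, and each prime factor `1` modulo `4` is 5, 13, 17 or sees only squares), all de Rham-Betti
   characters, for Fermat varieties of all dimensions, are generated, after multiplication of the
   degree by an auxiliary integer `l`, by the standard characters and the members of `FourBase`,
   whose lines are algebraic (see `MP_e12fcd_ag/FermatThreePrimes`, by helper993).
4. For every `m`, all de Rham-Betti characters with at most seven entries are generated by characters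
   with algebraic lines (see `MP_e12fcd_ag/FermatFourfoldsAllDegrees`, by helper992).

So `GPC^k(X)` holds for all `k`, for all Fermat varieties of degree `m` as in 3 and for the Fermat
varieties of dimension at most five of every degree.

The proof of 1: the exponents for which all conjugates are algebraic form a module over the group ring
of `(ℤ/m)ˣ`. If the excess of one of them is not zero, it does not vanish at some odd character `χ`.
Let `ζ`, a primitive root of unity of order `d`, generate the image of `χ`. The function `f` whose
value at `u` is `(-1)^|S|` if `χ(u)` is the power of `ζ` with the exponent `∑_(l ∈ S) d / l`, for a set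
`S` of prime divisors of `d`, and zero otherwise, has the Fourier transform
`∏_(l | d) (1 - ψ(σ) ^ (d / l))`, supported on the conjugates of `χ`. So a multiple of `f` is the excess
of an element of the module; but `f` has the values `0`, `1`, `-1` and is odd, that is, it is the
difference of two CM types, in contradiction with the theorem of Wüstholz.
-/

set_option autoImplicit false

namespace Pool.Agent.Results.MP_bf54cf_ag.FermatVarieties

open Pool.Agent.H916R2 Pool.Agent.N992 Pool.Agent.N993 Pool.Agent.N214.GP

theorem result (m : ℕ) [NeZero m] [NeZero (6 * m)] (P : Set (ZMod m)ˣ → (ZMod m)ˣ → ℂ)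
    (hD : Deligne m P) (hW : Wustholz m P) :
    (∀ e : ZMod m → ℤ, (∀ u, IsAlgebraic ℚ (period m e u)) → ∀ u, excess m e u = 0) ∧
    (∀ s : Multiset (ZMod m), IsDeRhamBetti m s ↔ IsHodge m s) ∧
    (MutualSquares m ∨ ThreePrimes m ∨ m ≤ 86 → ∃ l : ℕ, ∃ _ : NeZero (l * m),
      ((∀ p : ℕ, p.Prime → p ∣ m → p % 4 ≠ 1) → l = 1) ∧
      ∀ s : Multiset (ZMod m), IsDeRhamBetti m s → s ≠ 0 →
        Generated (l * m) (FourBase (l * m))
          (s.map (fun a => ((l * a.val : ℕ) : ZMod (l * m))))) ∧
    (∀ s : Multiset (ZMod m), IsDeRhamBetti m s → s ≠ 0 → Multiset.card s ≤ 7 →
      Generated (6 * m) (FourBase (6 * m)) (s.map fun a => ((6 * a.val : ℕ) : ZMod (6 * m)))) := by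
  have h2 : ∀ s : Multiset (ZMod m), IsDeRhamBetti m s → IsHodge m s :=
    isHodge_of_isDeRhamBetti P hD hW
  refine ⟨excess_eq_zero P hD hW, fun s => ⟨h2 s, isDeRhamBetti_of_isHodge P hD s⟩, ?_, ?_⟩
  · intro hm
    obtain ⟨l, hl, h1, h3⟩ := Pool.Agent.N993.mainT m hm
    exact ⟨l, hl, h1, fun s hs hne => h3 s (h2 s hs) hne⟩
  · intro s hs hne hcard
    have h3 := h2 s hs
    refine main_fourfold m s h3 ?_ hne
    obtain ⟨c, hc⟩ := h3.2.1
    omega

end Pool.Agent.Results.MP_bf54cf_ag.FermatVarieties
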