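import Pool.Agent.N179.DB.Stm2

/-!
# An arbitrary variety, and almost all elliptic curves: the period conjecture for cycles

Let `W` be the singular cohomology of the smooth projective varieties over the field `ℚ̄` of algebraic
numbers, with coefficients in `ℚ`, and `D` the algebraic de Rham cohomology. (The theorem is proved
for every Weil cohomology theory with a de Rham structure.) A class `c ∈ H^(2j)(X, ℚ)` is a
*de Rham-Betti class* if `(2 π i)^j c` lies in the algebraic de Rham cohomology of `X / ℚ̄`; the period
conjecture `GPC` says that all of them, for all `j`, are algebraic.

**Theorem 1 (elliptic curves; nothing is assumed about periods).** Let `E_i`, `i ∈ ι`, be elliptic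
curves over `ℚ̄` without complex multiplication, pairwise not isogenous (for instance all of them, one in
each isogeny class; they are described by theta functions, `AbVar 1`). Let `Z` be an **arbitrary**
smooth projective variety over `ℚ̄`. There is a finite set `S` of indices, with at most `(b - b') / 2`
elements, where `b` is the sum of the Betti numbers of `Z` and `b'` is the dimension of the space
spanned by the common eigenvectors of the period operators (these contain the de Rham-Betti classes),
such that for all pairwise different `i_1, …, i_n ∉ S` and all varieties `P_a` whose cohomology is
generated by `H^1(E_(i_a))` and by de Rham-Betti classes (for example the powers of `E_(i_a)`, or their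
products with cellular varieties):

* all de Rham-Betti classes on `P_1 × ⋯ × P_n × Z` are linear combinations of products of
  de Rham-Betti classes on the factors;
* `GPC(P_1 × ⋯ × P_n × Z)  ⟺  GPC(Z)` and `GPC(P_a)` for all `a` (cycles of all codimensions).

`GPC` is known for the powers of elliptic curves. So for every `Z` which satisfies `GPC` all the
products `E_(i_1)^(m_1) × ⋯ × E_(i_n)^(m_n) × Z` satisfy it too, for all curves `E_i` but at most
`(b - b') / 2`.

**Theorem 2 (independent families).** The same is true for every family of de Rham-Betti structures
`V_i` such that the structures `End V_i` are semisimple and pairwise independent (`Family`): for
`i ≠ j` all morphisms `End V_i → End V_j` have their values in the span of the eigenvectors. So only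
the squares have to be compared. For every structure `U` there is a finite set `E(U)` of exceptional
indices, with `E(V_j) ⊆ {j}` and with at most `dim U - dim U'` elements, where `U'` is the span of the
eigenvectors (`(b - b') / 2` for the cohomology of a variety). The varieties `Z` may be replaced by all
varieties generated by the `U_a` and by eigenvectors (for example all powers of a given variety, and
their products with abelian varieties with complex multiplication and with Fermat varieties), with
the exceptional set `E(U_1) ∪ ⋯ ∪ E(U_m)`. The powers of an elliptic curve fulfil all the hypotheses of
Theorem 2 (`family`, `power`).

## The group generated by the period operators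

The proof needs a group which acts on the complex cohomology of all varieties. Let `M` be the matrix of
the periods of `X`, with respect to bases of the Betti and of the de Rham cohomology. We take the
**period operators** with the matrices

`α(M) β(M)⁻¹`,  `α`, `β` automorphisms of `ℂ` which agree on `ℚ̄`.

More intrinsically: the pair `(α, β)` acts by the linear operator which maps `β(s)` to `α(s)` for
all `s` in the algebraic de Rham cohomology, where `α(s)`, `β(s)` are defined by the rational
structure. So the free group of all the pairs acts, compatibly with cup-products and
pull-backs, without any choice of a base point, and without the theory of Tannakian categories. It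
has the properties which one needs (proved in `Dict`, `Rk2`, `Hom`, `Eig`):

* the maps `M → N` which are equivariant under a subgroup of finite index are the `ℂ`-linear combinations
  of the morphisms of de Rham-Betti structures. So classes on which a subgroup of finite index acts by
  the power `χ^j` of the character `(α, β) ↦ α(2πi) / β(2πi)` are combinations of de Rham-Betti classes;
* **connectedness**: a line which is stable under a subgroup of finite index is stable under the group.

Both follow from the fact that a number with finitely many images under the automorphisms of `ℂ` over
`ℚ̄` is in `ℚ̄`, the second one by a descent argument for lines and their conjugates.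

Then the theory of the representations of an abstract group, of Goursat's lemma and of the
lemma of Ribet, which was developed for the Tate conjecture (`MP_021685_ag`,
IndependenceFromSquares), gives Theorem 2. For Theorem 1 one has to know the group of an elliptic
curve. It contains no line (by a theorem of Schneider: a line in `H^1(E, ℚ)` is not a de Rham-Betti
substructure; and if all the conjugates of a complex line are in two lines, the projections are
de Rham-Betti endomorphisms), by Wüstholz the de Rham-Betti endomorphisms and homomorphisms are those of
the curves, and its determinant is `χ` (Legendre's relation). By the theory of irreducible groups of
matrices of rank two, for two curves which are not isogenous an equivariant map between the `End V_i`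
vanishes on the matrices of trace zero: otherwise the curves would be isogenous up to a quadratic
character, which is trivial on a subgroup of index two, and hence trivial by the first property.
Finally the Lie algebra is `sl₂`, and for a variety generated by `V = H^1(E)` the cohomology is the image
of a sum of tensor powers of `V`, with Tate twists; these are completely reducible for the group, by the
hermitian form, and its elements act on the invariants of `sl₂` in `V^(⊗ 2m)` by the power `det^m = χ^m`.
-/

universe u

namespace Pool.Agent.Results.MP_bf54cf_ag.IndependenceOfPeriods

open Pool.Agent.H914 Pool.Agent.Y133.Per Pool.Agent.Y102
open Pool.Agent.N179.DB.S (QF DRB NoCM NonIsogenous Rationals)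
open Pool.Agent.N179.DB.St

/-- **An arbitrary variety, independent families of de Rham-Betti structures, and almost all elliptic
curves: the period conjecture for cycles.** -/
theorem result {k : Type u} [Field k] {𝒱 : VarClass k} {ops : CycleOps 𝒱}
    {W : WeilCohomology.{u, 0} ops} [Algebra W.K ℂ] :
    (Rationals W.K → ∀ (D : DeRham W QF) (ι : Type) (A : ι → AbVar 1), (∀ i, NoCM (A i)) →
      (∀ i j, i ≠ j → NonIsogenous (A i) (A j)) → Elliptic D A) ∧
    (∀ (F : Subfield ℂ) [IsAlgClosed F], (∀ r : W.K, algebraMap W.K ℂ r ∈ F) →
      ∀ (D : DeRham W F) (ι : Type) (V : ι → DRB W.K F), Family (fun i => sp (V i)) →
        ∃ E : DRB W.K F → Set ι, Splitting D V E) :=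
  ⟨fun hK D _ A h1 h2 => elliptic hK D A h1 h2, fun _ _ hKF D _ _ hV => split hKF D hV⟩

end Pool.Agent.Results.MP_bf54cf_ag.IndependenceOfPeriods
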