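import Pool.Agent.N192.GP.Exc

set_option autoImplicit false

/-!
# The period conjecture for cycles on products of K3 surfaces with an arbitrary variety `Z`: the
# Kuga-Satake part splits off from the periods of `Z`, with a bound for the exceptions

Let `A i`, `i ∈ I`, be a family of abelian varieties over the field `ℚ̄` of algebraic numbers (the set `I`
may be infinite), and let `V` be **any** de Rham-Betti structure over `ℚ̄`, pure or mixed (for example
the cohomology of an arbitrary variety `Z` over `ℚ̄`, open or singular, see `Structure`). As in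
`KugaSatake` nothing is assumed about periods: `AbVar` is the description of an abelian variety over
`ℚ̄` by theta functions.

We consider the *de Rham-Betti classes* in `H^1(∏ A' a) ^ {⊗ n} ⊗ (⊕ V j) ^ {⊗ n'} (w)`, for all `n`, `n'`,
`w`, for finite families of abelian varieties `A' a` and of structures `V j`: the multilinear forms
`φ u v` with rational values (`u` consists of `n` elements of the rational
homology of `∏ A' a`, `v` of `n'` elements of the dual of `⊕ V j`) such that `(2 π i) ^ w φ` is a
linear combination with algebraic coefficients of products of periods.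

Let `A i` be of spin type with `k i` colours of rank `r i` (`SpinType`; for example the Kuga-Satake
variety of a K3 surface, see below), and let the Lie algebra of the Hodge group of `A i` be without
ideals over `ℚ` if `r i ≥ 6` (`Simple`).

**Theorem.** For every de Rham-Betti structure `U` (of any rank) there is a set `E U` of *exceptional*
indices such that
* (a) `i` is not in `E U` if `U` is small in comparison with `A i` (`Small`; see below);
* (b) `E U` is finite up to isogeny: if `S` is a finite subset of `E U`, such that `r i ≥ 6` for all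
  `i ∈ S` and there are no homomorphisms between `A i` and `A j` for different elements `i`, `j` of `S`,
  then the sum over `S` of the numbers `k i * b (r i)` is at most the rank of `U`, where `b r = r`
  for `r ≥ 7` and `b 6 = 4` (`bound`);
* (c) for all finite families `A' a` of the `A i` (the same `A i` may occur several times; at most one of
  the ranks is smaller than five) and all finite families `V j` which are built from structures for
  which the `A' a` are not exceptional (`Built`), every de Rham-Betti class in
  `H^1(∏ A' a) ^ {⊗ n} ⊗ (⊕ V j) ^ {⊗ n'} (w)` is a sum of products `ψ ⊗ χ`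
  of classes `ψ` in `H^1(∏ A' a) ^ {⊗ n} (n / 2)` which are Hodge classes and de Rham-Betti classes, and
  of de Rham-Betti classes `χ` in `(⊕ V j) ^ {⊗ n'} (w - n / 2)` (`Splits`).

A structure `U` of dimension `d` is *small* in comparison with `A i` (`Small`) if it is of CM type (the
endomorphisms of the vector space which commute with all de Rham-Betti endomorphisms commute with each
other), or if `r i ≥ 7` and **`d < k i * r i`**. For the Kuga-Satake variety of a structure `T` of K3 type
`k i * r i` is the dimension of `T`, and `A i` is exceptional for `U = T`; so this bound and the bound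
in (b) cannot be improved. (For `r i = 6` the bound is `d < 4 k i`, or `d < 6` if there is a nondegenerate
symmetric form on `U` which is a de Rham-Betti class, or `d < 5` if there is such an alternating form.)
There is no condition on `U` besides the dimension: no polarisation, no weight filtration, no
algebraic group. The class `Built` is the smallest class of structures which contains the structures `U`
with `i ∉ E U` and is closed under subobjects, quotients, extensions, tensor products, duals, and Tate
twists. So it contains `H^q(Z)` for all varieties `Z`, open or singular, if the graded pieces of some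
filtration are of dimension smaller than that of `T`, and for all products of such varieties, their
Hilbert schemes, and so on. The de Rham-Betti classes of `Z` are not known, nor are its Hodge classes,
and the theorems of Deligne and Wüstholz are not available for `Z`.

If there are no `V j`, the theorem says that all de Rham-Betti classes on `∏ A' a` are Hodge classes;
in this case it was proved at the same time by helper208 (`ProductsOfK3`, in the form of torsors, for
`r i ≥ 6` and with the exception of pairs of rank eight). For one `A i` with one colour (`F = ℚ`) and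
polarised `V` of dimension smaller than `r` (even weight) or `r - 1` (odd weight) the theorem is contained
in `MP_470b79_ag.AnyVarietyTimesK3` of the library. What is new here are the **arbitrary structures `V`,
of any rank**, with a bound for the exceptions, the optimal bound `d < dim T` for arbitrary structures
without a polarisation, several colours (totally real fields `F`), several `A i` (also pairs of rank
eight, which may be linked by triality), and the ranks three and four.

## K3 surfaces

Let `X` be a K3 surface over `ℚ̄` (or a hyperkähler variety with `b_2 > 3`, a cubic fourfold, an abelian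
surface), with the transcendental lattice `T`, whose endomorphisms form a totally real field `F` (for
example `ℚ`, which is the general case; otherwise `F` is a CM field), let `k` be the degree of `F` and
let `r` be the dimension of `T` over `F`. By the theorem of Zarhin the Hodge group of `T` is the
restriction of scalars of `SO_F(T)`; the Kuga-Satake variety `A` of `T` satisfies `SpinType A r k` if
`r ≠ 5`, and `Simple A` if `r ≥ 6` (see `KugaSatake`). So we have, for K3 surfaces `X_1, …, X_s` of this
kind of ranks `r_i ≥ 6` (one of them may be 3 or 4 instead), which may be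
equal: all de Rham-Betti classes on all products of powers of the `X_i` and of their Kuga-Satake
varieties are Hodge classes, and motivated by the theorems of Deligne and André. Nothing is assumed
about isogenies between the `X_i`. For `s = 1` this is `KugaSatake`.

Let `Z` be **any** variety over `ℚ̄`. Then there is a finite set of isogeny classes of K3 surfaces as
above with `r ≥ 7` (isogenous means here: there are homomorphisms between the Kuga-Satake varieties), the
exceptions, such that the sum of the ranks of their lattices `T` is at most the sum of the Betti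
numbers of `Z`, and for all other `X_i` the de Rham-Betti classes on `∏ X_i ^ (n_i) × Z` are the sums of
products of Hodge classes on `∏ X_i ^ (n_i)` and of de Rham-Betti classes on `Z`. So
`GPC ^ k (∏ X_i ^ (n_i) × Z)` for all `k` follows from `GPC ^ k (Z)` for all `k` and from the Hodge
conjecture for `∏ X_i ^ (n_i)` (which is known for example for `X ^ n` if `F = ℚ` and `n < r`, by the
first fundamental theorem for special orthogonal groups). The set of exceptions does not change if one
replaces `Z` by its powers, and there are no exceptions with lattices `T` of rank larger than all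
dimensions of the graded pieces of the cohomology of `Z`. For example we have `GPC ^ k (X ^ n × Z)` for
all `k`, all `n ≤ 20`, all K3
surfaces `X` over `ℚ̄` with Picard number one and `F = ℚ`, if `Z` is an abelian variety of dimension
at most three or a product of at most three curves of genus at most ten, since `GPC ^ 1 (Z)` is known
(Bost and Charles) and implies the other degrees. For larger products of curves `GPC ^ k (Z)` is not
known.

## Proof

Let `𝔩` be the Lie algebra over `ℚ` generated by the rational components of the logarithmic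
derivatives of the matrix of periods of the total structure (for all derivations of `ℂ` over `ℚ̄`). It
acts on all de Rham-Betti classes by the character of the twist and determines them. By the theorem
of Schneider and Lang and the theorem on subalgebras of orthogonal Lie algebras in `KugaSatake` its
image in each `A i` is the whole Lie algebra `𝔤 i` of the Hodge group of `A i`, which is simple over `ℚ`.
So either `𝔤 i` splits off from the image of `𝔩` in `U`, or it is a quotient of this image; `E U` is the
set of the `i` for which it does not split off. Let `S` be a set as in (b).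
Then the image of `𝔩` in `U` is, over `ℂ`, a Lie algebra which is mapped onto the sum of the Lie algebras
`so(r i)` (`k i` times, for all `i ∈ S`), on a space of dimension `d`; and we show `d ≥ ∑ k i b (r i)`
(`datG_dim`). This is reduced to the irreducible case, where
the Lie algebra is reductive and the quotients lift to commuting subalgebras (Cartan's
criterion, by the theorems on trace forms in Mathlib). For commuting representations
of several `so(r i)` without invariants on one space we use the eigenspaces of an element of a Cartan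
subalgebra of one of them, of smallest rank, for two opposite eigenvalues, which are exchanged by a
rotation by a right angle; they are representations of the others (`SysG.dim`).

The lemmas of Goursat and Ribet show (c), if there are no common quotients of pairs; since `𝔤 i` is
perfect, the class of the `V` from which it splits off is closed under
extensions and tensor operations. For pairs `A i`, `A i'` of different ranks there is no common
quotient; for equal ranks, a common quotient is an isomorphism `θ`
of the two Lie algebras over `ℚ`. This is the most difficult case. We contract the equation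
`(ad Y) ^ 3 = - 4 ad Y` for the skew matrices `Y` which correspond to `θ (E_a E_b)` in three ways. If
`r ≠ 8` this gives `Y ^ 3 = - 4 Y` and trace `-8` for `Y ^ 2`, so `Y` is a rotation in a plane and
`θ (E_a E_b)` is of square `-1`. For `r = 8` it gives `Y ^ 3 = - 4 Y` or `Y ^ 2 = -1`; the second case is
triality. In this case we introduce raising and lowering operators: the element `y = θ (E_a E_b)`
is `i` times a number operator with the eigenvalues `-2, …, 2` (`number`: the polynomial
`Q = y (y ^ 2 + 1) (y ^ 2 + 4)` is an eigenvector, of eigenvalue `-12`, of the sum of the eight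
commuting involutions `x ↦ E_k x E_k`, so it is zero), its parity commutes with the Lie algebra, and
`y ^ 2 = - 1` on the odd part. The same is true for all other `a`, `b` on this part. So
the whole first Kuga-Satake variety and a nonzero part of the second one are
representations of the same finite group, and an average is a nonzero
homomorphism of representations for `θ`. It can be chosen over `ℚ`, and it is a homomorphism of
de Rham-Betti structures, so by the theorem of Schneider and Lang a homomorphism of abelian varieties
(in (b) this is excluded). Therefore `θ` respects the Hodge structures, and the endomorphism which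
defines the Hodge structure of `∏ A' a` is in `𝔩`.
-/

open Module Pool.Agent.Y102 Pool.Agent.W516.DR Pool.Agent.H204R3.GP

noncomputable section

namespace Pool.Agent.Results.MP_bf54cf_ag.SplitOff

/-- The period `(2 π i) ^ w` of the Tate twist. -/
def twist (w : ℤ) : ℂ := (2 * Real.pi * Complex.I) ^ w

section SpinType

variable {g : ℕ} (A : AbVar g)

/-- The multilinear forms in `2m` variables in the rational homology. -/
abbrev Form (m : ℕ) : Type := MultilinearMap ℚ (fun _ : Fin m × Fin 2 => A.H1) ℚ

/-- The endomorphism `X` annihilates the form `φ` (as a derivation). -/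
def Annihilates {m : ℕ} (X : Module.End ℚ A.H1) (φ : Form A m) : Prop :=
  ∀ v, ∑ k, φ (Function.update v k (X (v k))) = 0

/-- `X` is in the Lie algebra `𝔤`: it annihilates all classes in `H^1(A) ^ {⊗ 2m} (m)` that are Hodge
classes and de Rham-Betti classes. -/
def InLie (X : Module.End ℚ A.H1) : Prop :=
  ∀ (m : ℕ) (φ : Form A m), IsHodgeTensor (A.per : A.H1 →+ (Fin g → ℂ)) φ →
    IsDeRhamBettiForm QBar A.dR (2 * Real.pi * Complex.I) m φ → Annihilates A X φ

/-- The algebra of the endomorphisms of `H_1(A, ℂ)`, as matrices for the basis of the lattice. -/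
abbrev EndC (_ : AbVar g) : Type := Matrix (Fin (2 * g)) (Fin (2 * g)) ℂ

/-- The matrix of the extension of an endomorphism of `H_1(A, ℚ)` to `H_1(A, ℂ)`. -/
def toC (X : Module.End ℚ A.H1) : EndC A := Matrix.of fun i j => (X (Pi.single j 1) i : ℂ)

/-- The complex Lie algebra `𝔤 ⊗ ℂ`, acting on `H_1(A, ℂ)`. -/
def lieC : Submodule ℂ (EndC A) := Submodule.span ℂ {Y | ∃ X, InLie A X ∧ Y = toC A X}

/-- The `E i` are the generators of a Clifford algebra acting on `H_1(A, ℂ)`. -/
def Clifford {N : ℕ} (E : Fin N → EndC A) : Prop :=
  (∀ i, E i * E i = 1) ∧ ∀ i j, i ≠ j → E i * E j = -(E j * E i)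

/-- Every colour `σ` is the colour `c j` of exactly `r` of the `j`. -/
def Uniform {N k : ℕ} (c : Fin N → Fin k) (r : ℕ) : Prop :=
  ∀ σ, (Finset.univ.filter fun j => c j = σ).card = r

/-- The Lie algebra `𝔤 ⊗ ℂ` is a sum of `k` orthogonal Lie algebras `so(r)`, acting by spin
representations, and `r` is at least three and not five. -/
def SpinType (r k : ℕ) : Prop :=
  3 ≤ r ∧ r ≠ 5 ∧ ∃ (N : ℕ) (E : Fin N → EndC A) (c : Fin N → Fin k), Clifford A E ∧
    Uniform c r ∧ lieC A = Submodule.span ℂ {Y | ∃ i j, i ≠ j ∧ c i = c j ∧ Y = E i * E j}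

/-- `N` is an ideal of the Lie algebra `𝔤`. -/
def IsIdeal (N : Submodule ℚ (Module.End ℚ A.H1)) : Prop :=
  ∀ Y ∈ N, InLie A Y ∧ ∀ X, InLie A X → X * Y - Y * X ∈ N

/-- The Lie algebra `𝔤` has no ideals except zero and `𝔤`. -/
def Simple : Prop :=
  ∀ N, IsIdeal A N → ∀ Y ∈ N, Y ≠ 0 → ∀ X, InLie A X → X ∈ N

variable {A}

theorem SpinType.matK {r k : ℕ} (h : SpinType A r k) : Pool.Agent.N192.GP.SpinMatK A k r := by
  obtain ⟨h3, h5, N, E, c, ⟨e1, e2⟩, hc, hl⟩ := h
  exact ⟨N, E, c, h3, h5, e1, e2, hc, hl⟩

theorem Simple.noIdeals (h : Simple A) : Pool.Agent.N192.GP.NoIdeals A.NA := by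
  intro N hN
  have h1 := h N fun Y hY => ⟨hN.1 hY, fun X hX => hN.2 X hX Y hY⟩
  by_cases h0 : N = ⊥
  · exact Or.inl h0
  · obtain ⟨Y, hY, hY0⟩ := (Submodule.ne_bot_iff N).1 h0
    exact Or.inr (le_antisymm hN.1 fun X hX => h1 Y hY hY0 X hX)

end SpinType

/-- A de Rham-Betti structure of rank `d` over `ℚ̄`: the Betti side is the dual of `ℚ ^ d`, and the
de Rham side is given by a basis, whose elements are considered as linear functions on `ℚ ^ d` with
complex values (the periods are the values on the rational vectors); the independence means that the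
comparison is an isomorphism. -/
structure Structure (d : ℕ) where
  /-- the basis of the de Rham side -/
  dR : Fin d → ((Fin d → ℚ) →ₗ[ℚ] ℂ)
  indep : LinearIndependent ℂ dR

section Structures

variable {d d' d'' : ℕ}

/-- `B` is a de Rham-Betti class in `V' ⊗ V (w)`. -/
def IsPairing (V' : Structure d') (V : Structure d) (w : ℤ)
    (B : (Fin d' → ℚ) →ₗ[ℚ] (Fin d → ℚ) →ₗ[ℚ] ℚ) : Prop :=
  ∃ b : Fin d' → Fin d → QBar, ∀ u v,
    twist w * (B u v : ℂ) = ∑ i, ∑ j, algebraMap QBar ℂ (b i j) * (V'.dR i u * V.dR j v)

/-- `f` is (the transpose of) a homomorphism of de Rham-Betti structures from `V` to `V'`. -/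
def IsHom (V' : Structure d') (V : Structure d) (f : (Fin d' → ℚ) →ₗ[ℚ] (Fin d → ℚ)) : Prop :=
  ∃ a : Fin d → Fin d' → QBar, ∀ i u, V.dR i (f u) = ∑ j, algebraMap QBar ℂ (a i j) * V'.dR j u

/-- `β` is (the transpose of) a homomorphism from `V` to `V' ⊗ V'' (w)`. -/
def IsBilinear (V' : Structure d') (V'' : Structure d'') (V : Structure d) (w : ℤ)
    (β : (Fin d' → ℚ) →ₗ[ℚ] (Fin d'' → ℚ) →ₗ[ℚ] (Fin d → ℚ)) : Prop :=
  ∃ b : Fin d → Fin d' → Fin d'' → QBar, ∀ i u v, twist w * V.dR i (β u v) =
    ∑ j, ∑ k, algebraMap QBar ℂ (b i j k) * (V'.dR j u * V''.dR k v)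

/-- `X` commutes with all de Rham-Betti endomorphisms. -/
def InCommutant (V : Structure d) (X : Module.End ℚ (Fin d → ℚ)) : Prop :=
  ∀ P, IsDeRhamBettiEnd QBar V.dR P → ∀ u, X (P u) = P (X u)

/-- The structure `V` is of CM type: all endomorphisms of the vector space which commute with the
de Rham-Betti endomorphisms commute with each other. -/
def IsCM (V : Structure d) : Prop :=
  ∀ X Y, InCommutant V X → InCommutant V Y → ∀ u, X (Y u) = Y (X u)

/-- There is a nondegenerate symmetric form which is a de Rham-Betti class in `V ⊗ V (w)`. -/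
def IsOrthogonal (V : Structure d) : Prop :=
  ∃ w B, IsPairing V V w B ∧ (∀ u, (∀ v, B u v = 0) → u = 0) ∧ ∀ u v, B u v = B v u

/-- There is a nondegenerate alternating form which is a de Rham-Betti class in `V ⊗ V (w)`. -/
def IsSymplectic (V : Structure d) : Prop :=
  ∃ w B, IsPairing V V w B ∧ (∀ u, (∀ v, B u v = 0) → u = 0) ∧ ∀ u v, B u v = -B v u

/-- The structure `V` is small in comparison with a sum of `k` orthogonal Lie algebras of rank `r`. -/
def Small (V : Structure d) (r k : ℕ) : Prop :=
  IsCM V ∨ (7 ≤ r ∧ d < k * r) ∨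
    (r = 6 ∧ (d < k * 4 ∨ (d < 6 ∧ IsOrthogonal V) ∨ (d < 5 ∧ IsSymplectic V)))

/-- The smallest class of de Rham-Betti structures which contains the structures with the property `P`
and is closed under subobjects, quotients and extensions (`middle`: `V'' → V → V'` is exact in the
middle), tensor products and Tate twists (`tensor`: `V` is a subobject of `V' ⊗ V'' (w)`) and duals. -/
inductive Built (P : ∀ d : ℕ, Structure d → Prop) : ∀ {d : ℕ}, Structure d → Prop
  | base {d : ℕ} {V : Structure d} (h : P d V) : Built P V
  | middle {d d' d'' : ℕ} {V' : Structure d'} {V : Structure d} {V'' : Structure d''}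
      (f : (Fin d' → ℚ) →ₗ[ℚ] (Fin d → ℚ)) (p : (Fin d → ℚ) →ₗ[ℚ] (Fin d'' → ℚ))
      (hf : IsHom V' V f) (hp : IsHom V V'' p) (hex : ∀ u, p u = 0 → ∃ u', f u' = u)
      (h' : Built P V') (h'' : Built P V'') : Built P V
  | tensor {d d' d'' : ℕ} {V' : Structure d'} {V'' : Structure d''} {V : Structure d} (w : ℤ)
      (β : (Fin d' → ℚ) →ₗ[ℚ] (Fin d'' → ℚ) →ₗ[ℚ] (Fin d → ℚ)) (hβ : IsBilinear V' V'' V w β)
      (hs : Submodule.span ℚ {x | ∃ u v, β u v = x} = ⊤)
      (h' : Built P V') (h'' : Built P V'') : Built P V
  | dual {d d' : ℕ} {V' : Structure d'} {V : Structure d} (w : ℤ)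
      (B : (Fin d' → ℚ) →ₗ[ℚ] (Fin d → ℚ) →ₗ[ℚ] ℚ) (hB : IsPairing V' V w B)
      (hn : ∀ v, (∀ u, B u v = 0) → v = 0) (h' : Built P V') : Built P V

/-- The structure as a member of the family of all structures. -/
def toU (V : Structure d) : Pool.Agent.N192.GP.UU := ⟨d, ⟨V.dR, V.indep⟩⟩

/-- The Lie algebra of a structure of spin type splits off from small structures. -/
theorem Small.sep {s : Pool.Agent.N192.GP.UU} {r k : ℕ}
    (hk : Pool.Agent.N192.GP.SpinK (Pool.Agent.N192.GP.ggU s) k r) (h3 : 3 ≤ r)
    (hni : 6 ≤ r → Pool.Agent.N192.GP.NoIdeals (Pool.Agent.N192.GP.ggU s))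
    {V : Structure d} (h : Small V r k) : Pool.Agent.N192.GP.SepU s (toU V) := by
  have hs := hk.spin
  rcases h with h | ⟨h7, h⟩ | ⟨h6, h | ⟨hd, w, B, ⟨b, hb⟩, hB, hs'⟩ | ⟨hd, w, B, ⟨b, hb⟩, hB, hs'⟩⟩
  · exact Pool.Agent.N192.GP.sepU_small hs h3 (.cm fun X Y hX hY => LinearMap.ext (h X Y
      (fun P hP u => LinearMap.congr_fun (hX P hP) u)
      fun P hP u => LinearMap.congr_fun (hY P hP) u))
  · refine Pool.Agent.N192.GP.sepU_dim hk (by omega) (hni (by omega)) ?_
    have h1 : Pool.Agent.N192.GP.beta r = r := if_neg (by omega)
    rw [h1]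
    exact h
  · refine Pool.Agent.N192.GP.sepU_dim hk (by omega) (hni (by omega)) ?_
    have h1 : Pool.Agent.N192.GP.beta r = 4 := if_pos h6
    rw [h1]
    exact h
  · exact Pool.Agent.N192.GP.sepU_small hs h3 (.symm h6.ge w B hB hs' b hb (hd.trans_le h6.ge))
  · exact Pool.Agent.N192.GP.sepU_small hs h3 (.alt h6.ge w B hB hs' b hb
      ((Nat.succ_lt_succ hd).trans_le h6.ge))

/-- The structures from which a perfect Lie algebra splits off form a class which is closed under the
constructions. -/
theorem Built.sep {s : Pool.Agent.N192.GP.UU} {P : ∀ d : ℕ, Structure d → Prop}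
    (hperf : Pool.Agent.N192.GP.ggU s ≤
      Pool.Agent.N192.GP.brk (Pool.Agent.N192.GP.ggU s) (Pool.Agent.N192.GP.ggU s))
    (hP : ∀ (d : ℕ) (U : Structure d), P d U → Pool.Agent.N192.GP.SepU s (toU U))
    {V : Structure d} (h : Built P V) : Pool.Agent.N192.GP.SepU s (toU V) := by
  induction h with
  | base h => exact hP _ _ h
  | @middle _ _ _ V₁ V V₂ f p hf hp hex _ _ ih' ih'' =>
    exact Pool.Agent.N192.GP.sepU_middle (V' := toU V₁) (V := toU V) (V'' := toU V₂)
      hperf hf hp hex ih' ih''
  | @tensor _ _ _ V₁ V₂ V w β hβ hs' _ _ ih' ih'' =>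
    exact Pool.Agent.N192.GP.sepU_tensor (V' := toU V₁) (V'' := toU V₂) (V := toU V)
      hperf hβ hs' ih' ih''
  | @dual _ _ V₁ V w B hB hn _ ih' =>
    exact Pool.Agent.N192.GP.sepU_dual (V' := toU V₁) (V := toU V) hperf hB hn ih'

end Structures

section Family

variable {K J : Type} [Fintype K] [DecidableEq K] [Fintype J] [DecidableEq J]
  {g : K → ℕ} (A : ∀ a, AbVar (g a)) {d : J → ℕ} (V : ∀ j, Structure (d j))

/-- The rational homology of the product of the `A i`. -/
abbrev HA : Type := ∀ i, (A i).H1

/-- The dual of the Betti side of the sum of the `V j`. -/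
abbrev HV (_ : ∀ j, Structure (d j)) : Type := ∀ j, Fin (d j) → ℚ

/-- The inclusion of the homology of the product of the `A i` into its tangent space. -/
def period : HA A →+ (∀ i, Fin (g i) → ℂ) where
  toFun v := fun i => (A i).per (v i)
  map_zero' := funext fun i => map_zero (A i).per
  map_add' u v := funext fun i => map_add (A i).per (u i) (v i)

/-- The basis of the first de Rham cohomology of the product of the `A i`. -/
def dRA (p : Σ i, Fin (g i) ⊕ Fin (g i)) : HA A →ₗ[ℚ] ℂ :=
  ((A p.1).dR p.2).comp (LinearMap.proj p.1)

/-- The basis of the de Rham side of the sum of the `V j`. -/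
def dRV (p : Σ j, Fin (d j)) : HV V →ₗ[ℚ] ℂ := ((V p.1).dR p.2).comp (LinearMap.proj p.1)

/-- Hodge classes on the powers of the product of the `A i`. -/
def IsHodge {n : ℕ} (ψ : MultilinearMap ℚ (fun _ : Fin n => HA A) ℚ) : Prop :=
  IsHodgeTensor (period A) ψ

/-- De Rham-Betti classes: `(2 π i) ^ w φ` is a combination of products of `n` elements of the basis
`η` with algebraic coefficients. -/
def IsDRB {W ι : Type} [AddCommGroup W] [Module ℚ W] [Fintype ι] (η : ι → (W →ₗ[ℚ] ℂ)) {n : ℕ}
    (w : ℤ) (φ : MultilinearMap ℚ (fun _ : Fin n => W) ℚ) : Prop :=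
  ∃ a : (Fin n → ι) → QBar, ∀ v, twist w * (φ v : ℂ) =
    ∑ J, algebraMap QBar ℂ (a J) * ∏ l, η (J l) (v l)

/-- The forms in `n` variables in the homology of `∏ A i` and in `n'` variables in the dual of
`⊕ V j`. -/
abbrev Mixed (n n' : ℕ) : Type :=
  MultilinearMap ℚ (fun _ : Fin n => HA A) (MultilinearMap ℚ (fun _ : Fin n' => HV V) ℚ)

/-- De Rham-Betti classes in `H^1(∏ A i) ^ {⊗ n} ⊗ (⊕ V j) ^ {⊗ n'} (w)`. -/
def IsDRBMixed {n n' : ℕ} (w : ℤ) (φ : Mixed A V n n') : Prop :=
  ∃ a : (Fin n → Σ i, Fin (g i) ⊕ Fin (g i)) → (Fin n' → Σ j, Fin (d j)) → QBar,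
    ∀ u v, twist w * (φ u v : ℂ) = ∑ J, ∑ J', algebraMap QBar ℂ (a J J') *
      ((∏ l, dRA A (J l) (u l)) * ∏ l, dRV V (J' l) (v l))

/-- `ψ ⊗ χ` is the product of a Hodge class in `H^1(∏ A i) ^ {⊗ n} (m)`, `n = 2 m`, which is also a
de Rham-Betti class, and of a de Rham-Betti class in `(⊕ V j) ^ {⊗ n'} (w - m)`. -/
def IsProduct {n n' : ℕ} (w : ℤ) (ψ : MultilinearMap ℚ (fun _ : Fin n => HA A) ℚ)
    (χ : MultilinearMap ℚ (fun _ : Fin n' => HV V) ℚ) : Prop :=
  IsHodge A ψ ∧ ∃ m : ℤ, (n : ℤ) = 2 * m ∧ IsDRB (dRA A) m ψ ∧ IsDRB (dRV V) (w - m) χ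

/-- `φ` is a sum of such products. -/
def Splits {n n' : ℕ} (w : ℤ) (φ : Mixed A V n n') : Prop :=
  ∃ (N : ℕ) (ψ : Fin N → MultilinearMap ℚ (fun _ : Fin n => HA A) ℚ)
    (χ : Fin N → MultilinearMap ℚ (fun _ : Fin n' => HV V) ℚ),
    (∀ k, IsProduct A V w (ψ k) (χ k)) ∧ ∀ u v, φ u v = ∑ k, ψ k u * χ k v

/-- All de Rham-Betti classes split. -/
def ClassesSplit : Prop :=
  ∀ (n n' : ℕ) (w : ℤ) (φ : Mixed A V n n'), IsDRBMixed A V w φ → Splits A V w φ

/-- The main step. -/
theorem classesSplit {r k : K → ℕ} (hspin : ∀ i, SpinType (A i) (r i) (k i))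
    (hfour : ∀ i i', i ≠ i' → r i ≤ 4 → 6 ≤ r i') (hsimple : ∀ i, 6 ≤ r i → Simple (A i))
    (hsep : ∀ i j, Pool.Agent.N192.GP.SepU ⟨2 * g i, Pool.Agent.N192.GP.DA A i⟩ (toU (V j))) :
    ClassesSplit A V := by
  intro n n' w φ hφ
  let V' : ∀ j, Pool.Agent.N192.GP.DRS (d j) := fun j => ⟨(V j).dR, (V j).indep⟩
  have hsp : ∀ i, Pool.Agent.N192.GP.SpinMatK (A i) (k i) (r i) := fun i => (hspin i).matK
  have h6 : ∀ i i', i ≠ i' → r i = r i' → 6 ≤ r i := by
    intro i i' hne hr
    by_contra hcon
    have h1 := (hspin i).2.1
    have h2 := hfour i i' hne (by omega)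
    omega
  have hgood : Pool.Agent.N192.GP.Good A V' r :=
    ⟨fun i => (hsp i).mat, hfour, fun i i' hne hr => ⟨(hsimple i (h6 i i' hne hr)).noIdeals,
      (hsimple i' (h6 i' i (Ne.symm hne) hr.symm)).noIdeals⟩,
      fun i j => Pool.Agent.N192.GP.sep_final (hsep i j)⟩
  obtain ⟨N, ψ, χ, h1, h2⟩ := hgood.top hφ
  refine ⟨N, ψ, χ, fun k => ?_, h2⟩
  obtain ⟨e1, m, hm, e2, e3⟩ := h1 k
  rw [Fintype.card_fin] at hm
  exact ⟨e1, m, hm, e2, e3⟩

end Family

/-- There are no nonzero homomorphisms from `A` to `A'`: linear maps of the rational homology which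
respect the Hodge structures and the de Rham structures. -/
def NoHom {g g' : ℕ} (A : AbVar g) (A' : AbVar g') : Prop :=
  ∀ f : A.H1 →ₗ[ℚ] A'.H1,
    (∃ Q : (Fin g → ℂ) →ₗ[ℂ] (Fin g' → ℂ), ∀ w, A'.per (f w) = Q (A.per w)) →
    (∃ a : (Fin g' ⊕ Fin g') → (Fin g ⊕ Fin g) → QBar, ∀ p w,
      A'.dR p (f w) = ∑ q, algebraMap QBar ℂ (a p q) * A.dR q w) → f = 0

/-- The smallest dimension of a nontrivial representation of `so(r)`, for `r ≥ 6`. -/
def bound (r : ℕ) : ℕ := if r = 6 then 4 else r

/-- **The exceptional abelian varieties of a de Rham-Betti structure.** -/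
theorem result {I : Type} {g : I → ℕ} (A : ∀ i, AbVar (g i)) (r k : I → ℕ)
    (hspin : ∀ i, SpinType (A i) (r i) (k i)) (hsimple : ∀ i, 6 ≤ r i → Simple (A i)) :
    ∃ E : ∀ d : ℕ, Structure d → Set I,
      (∀ (d : ℕ) (U : Structure d) (i : I), Small U (r i) (k i) → i ∉ E d U) ∧
      (∀ (d : ℕ) (U : Structure d) (S : Finset I), (∀ i ∈ S, i ∈ E d U ∧ 6 ≤ r i) →
        (∀ i ∈ S, ∀ j ∈ S, i ≠ j → NoHom (A i) (A j)) → ∑ i ∈ S, k i * bound (r i) ≤ d) ∧
      ∀ {K J : Type} [Fintype K] [DecidableEq K] [Fintype J] [DecidableEq J] (e : K → I)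
        {d : J → ℕ} (V : ∀ j, Structure (d j)),
        (∀ a b, a ≠ b → r (e a) ≤ 4 → 6 ≤ r (e b)) →
        (∀ a j, Built (fun d U => e a ∉ E d U) (V j)) → ClassesSplit (fun a => A (e a)) V := by
  classical
  have hsp : ∀ i, Pool.Agent.N192.GP.SpinMatK (A i) (k i) (r i) := fun i => (hspin i).matK
  have hsU : ∀ i, Pool.Agent.N192.GP.SpinK
      (Pool.Agent.N192.GP.ggU ⟨2 * g i, Pool.Agent.N192.GP.DA A i⟩) (k i) (r i) := fun i =>
    Pool.Agent.N192.GP.spinK_ggU (I := Unit) (A := fun _ => A i) (i := ()) (hsp i)
  have hni : ∀ i, 6 ≤ r i → Pool.Agent.N192.GP.NoIdeals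
      (Pool.Agent.N192.GP.ggU ⟨2 * g i, Pool.Agent.N192.GP.DA A i⟩) := fun i h6 =>
    Pool.Agent.N192.GP.noIdeals_ggU (I := Unit) (A := fun _ => A i) (i := ()) (hsp i).mat
      (hsimple i h6).noIdeals
  refine ⟨fun d U => {i | ¬Pool.Agent.N192.GP.SepU
    ⟨2 * g i, Pool.Agent.N192.GP.DA A i⟩ (toU U)}, fun d U i h h' => ?_, fun d U S hS hom => ?_,
    fun e d V hfour hbuilt => ?_⟩
  · exact h' (h.sep (hsU i) (hsp i).mat.three (hni i))
  · have h1 := Pool.Agent.N192.GP.exc_dim (I := S) (A := fun i : S => A i.1)
      (r := fun i => r i.1) (k := fun i => k i.1) (fun i => hsp i.1) (fun i => (hS i.1 i.2).2)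
      (fun i => (hsimple i.1 (hS i.1 i.2).2).noIdeals)
      (fun i i' hne f hf => hom i.1 i.2 i'.1 i'.2 (fun h => hne (Subtype.ext h)) f hf.1 hf.2)
      (U := ⟨U.dR, U.indep⟩) (fun i => (hS i.1 i.2).1)
    rwa [Finset.sum_coe_sort S (fun i => k i * Pool.Agent.N192.GP.beta (r i))] at h1
  · refine classesSplit (fun a => A (e a)) V (r := fun a => r (e a)) (k := fun a => k (e a))
      (fun a => hspin (e a)) hfour (fun a => hsimple (e a)) fun a j => ?_
    exact (hbuilt a j).sep ((hsU (e a)).spin.perf (hsp (e a)).mat.three)
      fun d U hU => not_not.1 hU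

end Pool.Agent.Results.MP_bf54cf_ag.SplitOff
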