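import Pool.Agent.N208.LC.Fin
import Pool.Agent.N297.LCCOREG

set_option autoImplicit false

/-!
# The Grothendieck period conjecture for algebraic cycles on powers of abelian varieties of unitary type

Let `A` be an abelian variety over `ℚ̄`, such that the centre of `End(A) ⊗ ℚ` is a CM field `F`,
generated by an element `z` with `z̄ = - z`. (So `A` is isogenous to a power of a simple abelian variety
of type IV.) Let `B` be the algebra of the endomorphisms of the rational vector space `H_1(A, ℚ)` which
commute with `End(A)`, a central simple algebra over `F`, of dimension `N ^ 2`. Let `S` be a set of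
representatives, modulo `a ↦ - a`, of the real numbers `a` such that both `i a` and `- i a` are eigenvalues
of `z` on the tangent space of `A`: so `S` is the set of the places of `F` at which the unitary group of
`B` is not compact, of a signature `(r_a, s_a)` with `r_a, s_a ≥ 1`, `r_a + s_a = N`. Let `S` be nonempty
(otherwise `A` is of CM type). We assume that one of the following is true (`UnitaryType`).

* (`BallType`) All signatures `(r_a, s_a)`, `a ∈ S`, are `(1, N - 1)` (`a ∈ S` is chosen such that `i a`
  is the eigenvalue which belongs to the `1`). If `B = B₁ F` for a subalgebra `B₁ ⊆ B` over `ℚ`, then the elements of `F` in `B₁` separate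
  all the numbers `± i a`, `a ∈ S`.
* (`DivisionType`) `N` is a prime number and `B` is a division algebra; the integers `r_a, s_a ≥ 1` are
  arbitrary. If `B = B₁ F` for a subalgebra `B₁ ⊆ B` over `ℚ`, then the elements of `F` in `B₁` separate
  `± i a` and `± i b` for different `a`, `b` in `S` (so nothing is assumed if `S` has one element).

These are the abelian varieties of the compact Shimura varieties of Kottwitz, Clozel, Harris and Taylor:
for the general abelian variety of such a family `End(A) ⊗ ℚ = B^op`, and `dim A = d N ^ 2` if `B` is a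
division algebra and `[F : ℚ] = 2 d`.

**Theorem.** Let `m` and `n` be natural numbers, and suppose that

1. `m < N` if `N` is odd, `2 m < N` if `N` is even; or
2. (`ControlledCentre`) there is an abelian variety `A'` with `A` as a factor, such that the centre of
   the Lie algebra of the Hodge group of `A'` is rigid, and acts on `A` through all elements `x ∈ F` with
   `x̄ = - x`.

Then every de Rham-Betti class in `H^1(A ^ n) ^ {⊗ 2 m} (m)` is a linear combination of products of
Hodge classes in `H^1(A ^ n) ^ {⊗ 2} (1)`, and every class in `H^{2 m}_Gr(A ^ n, ℚ(m))` is a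
linear combination of products of `m` divisor classes. So `GPC^m(A ^ n)` is true.

In the case 1 this gives for odd `N` the period conjecture for cycles of codimension `m < N` (and, by
hard Lefschetz, of codimension `m > dim(A ^ n) - N`) on all powers of `A`, for all CM fields `F`.

**In all codimensions.** Let `F` be imaginary quadratic, `r ≠ s` (this is automatic if `N` is odd).
Then the assumption 2 is satisfied, and `GPC^m(A ^ n)` is true for *all* `m` and `n`. For let
`A' = A × E₀`, where `E₀` is an elliptic curve with complex multiplication by `F`. The centre of the Lie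
algebra of the Hodge group of `A'` is the set of the `(α x, x)`, `x ∈ F`, `x̄ = -x`, with
`α = ± (r - s) / N ≠ 0`; it has dimension one. The element zero is not a generating element in the sense
of `Generates` (the endomorphisms of `H_1(E₀, ℚ)` commute with the derived algebra, but not with `F`),
and all other elements are rational multiples of each other; so the centre is rigid.

The previous results of this repository for such abelian varieties (`DivisionAlgebraPeriods` of
helper144, `ProductsOfBalls`, `DivisionAlgebrasOfPrimeDegree`, `CentreOfPeriodTorsors`) concern the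
torsors of periods, the derived group of the Mumford-Tate group, and for `F` imaginary quadratic
also the centre; they do not give the classes on powers of `A` for general `F`, since nothing is known
about the centre.

Nothing is assumed about periods: `AbVar` is the description of an abelian variety over `ℚ̄` by theta
functions (see `Pool/Agent/Y102/AVDefs.lean`, where it is explained why every abelian variety has it),
and the transcendence theorems which are used, the theorem of Schneider and Lang and the
transcendence of `π`, are proved in this repository.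

## The classes

The cohomology of the abelian variety `A ^ n` in degree `2 m` is the space of the alternating forms in
`2 m` variables on `H_1(A ^ n, ℚ) = H_1(A, ℚ) ^ n`, and `H^{2m}_dR(A ^ n / ℚ̄)` is the exterior power of
`H^1_dR(A ^ n / ℚ̄)`, which has a basis consisting of the elements `A.dR i` on the `n` factors
(`dRPow`). So `H^{2m}_Gr(A ^ n, ℚ(m))` is the space of the rational alternating forms `φ` such that
`(2 π i) ^ m φ` is a combination of products of elements of this basis, with algebraic
coefficients (`IsDRB`). The variables are indexed by `Fin m × Fin 2`. A rational alternating form in two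
variables which is a Hodge class is the class of a divisor, with rational coefficients, by the theorem of
Lefschetz (`IsDivisorClass`).

## Proof

Let `𝔩` be the Lie algebra of the endomorphisms of `H_1(A, ℚ)` which annihilate all de Rham-Betti
classes. By the theorem of Schneider and Lang `𝔩` acts semisimply, with the commutant `End(A) ⊗ ℚ`.

1. At the places of `S` the theorems on irreducible subalgebras of `u(r, s)` show that `[𝔩, 𝔩] ⊗ ℝ` has
   the image `su(r_a, s_a)`, and the product of these for all `a ∈ S` (`BT`). At the other places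
   the trace form of `[𝔩, 𝔩] ⊗ ℝ` is negative definite; it follows that `[𝔩, 𝔩] ⊗ ℝ` contains the elements of
   `su(r_a, s_a)` extended by zero (`S_CPT`). As `F` is a field, `[𝔩, 𝔩]` is equal to the Lie algebra
   `su(B)` of the skew elements of `B` with the reduced trace zero (`S_U`): its orthogonal complement
   in `su(B)` for the trace form vanishes at one place, so it vanishes.
2. Over `ℂ` the Lie algebra `su(B)` is a product of Lie algebras `sl(N)`, and `H_1(A, ℂ)` is a sum of
   copies of the standard representations and their duals (`S_ADB`). An invariant form in `2 m`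
   variables is annihilated by the product of the `gl(N)` if `m` is as in 1 (`S_BAL`). By the
   first fundamental theorem it is a combination of products of contractions (`S_CORE`, `S_BR`),
   and these are given by endomorphisms of `A`. This is a statement over `ℚ` (`S_DESC`).
3. In the case 2 the centre of the Lie algebra of `A'` annihilates all de Rham-Betti classes on `A'`
   (`AbVar.centre_le`), so the elements `x ∈ F` with `x̄ = -x` are in `𝔩`, and `𝔩` contains the Lie algebra
   of the full unitary group of `B`; now the first fundamental theorem for products of general linear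
   groups applies in all degrees (`S_COREG`, `S_BRG`).
-/

open Module Matrix Pool.Agent.Y102 Pool.Agent.W516.DR Pool.Agent.H204R3.GP

noncomputable section

namespace Pool.Agent.Results.MP_bf54cf_ag.UnitaryPowers

variable {g : ℕ} (A : AbVar g)

/-! ### Abelian varieties of unitary type -/

/-- `P` is an endomorphism of `A` (up to isogeny), in terms of its action on `H_1(A, ℚ)`: it respects
the de Rham structure. (By the theorem of Bost, which is proved in `Pool.Agent.Y102.AbVar.hodge_end`,
these are the elements of `End(A) ⊗ ℚ`.) -/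
def IsEndo (P : Module.End ℚ A.H1) : Prop := IsDeRhamBettiEnd QBar A.dR P

/-- The endomorphism `X` of `H_1(A, ℚ)` commutes with the endomorphisms of `A`. -/
def Commutes (X : Module.End ℚ A.H1) : Prop := ∀ P, IsEndo A P → X * P = P * X

/-- `X` is a polynomial in `z`. -/
def IsPolynomial (z X : Module.End ℚ A.H1) : Prop := ∃ q : Polynomial ℚ, X = Polynomial.aeval z q

/-- `X` is skew-symmetric for the polarization. -/
def IsSkewSymmetric (X : Module.End ℚ A.H1) : Prop := ∀ u v, A.om (X u) v + A.om u (X v) = 0

/-- The centre of the algebra of the endomorphisms is the field `ℚ[z]`, and `z` is skew-symmetric. -/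
structure CentreField (z : Module.End ℚ A.H1) : Prop where
  endo : IsEndo A z
  central : Commutes A z
  generates : ∀ P, IsEndo A P → Commutes A P → IsPolynomial A z P
  skew : IsSkewSymmetric A z
  nonzero : z ≠ 0
  /-- the nonzero elements of `ℚ[z]` are injective -/
  field : ∀ X, IsPolynomial A z X → X ≠ 0 → Function.Injective X

/-- The commutant of the endomorphisms is of dimension `N ^ 2` over `ℚ[z]`. -/
def HasDegree (z : Module.End ℚ A.H1) (N : ℕ) : Prop :=
  Set.finrank ℚ {X | Commutes A X} = N ^ 2 * Set.finrank ℚ {X | IsPolynomial A z X}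

/-- `x` is an eigenvector of `z` for the eigenvalue `i a` (or zero); here `H_1(A, ℝ) = ℂ ^ g` is the
tangent space, and `A.ext z` is the real linear extension of `z`. -/
def Eigen (z : Module.End ℚ A.H1) (a : ℝ) (x : Fin g → ℂ) : Prop :=
  A.ext z x = ((a : ℂ) * Complex.I) • x

/-- `i a` is an eigenvalue of `z` on the tangent space. -/
def IsEigenvalue (z : Module.End ℚ A.H1) (a : ℝ) : Prop := ∃ x, x ≠ 0 ∧ Eigen A z a x

/-- The nonempty set `S` represents the indefinite places: `± S` is the set of the numbers `a` such
that `i a` and `- i a` are eigenvalues of `z` on the tangent space. -/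
structure Places (z : Module.End ℚ A.H1) (S : Finset ℝ) : Prop where
  nonempty : S.Nonempty
  disjoint : ∀ a ∈ S, -a ∉ S
  indefinite : ∀ a : ℝ, (a ∈ S ∨ -a ∈ S) ↔ (IsEigenvalue A z a ∧ IsEigenvalue A z (-a))

/-- **The separation.** If the subalgebra `B₁` generates together with `z` the algebra `B` of all
endomorphisms which commute with the endomorphisms of `A`, then `B₁` contains a polynomial in `z`
which separates the numbers `i a` and `i b`. -/
def Separates (z : Module.End ℚ A.H1) (a b : ℝ) : Prop :=
  ∀ B₁ : Subalgebra ℚ (Module.End ℚ A.H1), (∀ X ∈ B₁, Commutes A X) →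
    (∀ X, Commutes A X → X ∈ Algebra.adjoin ℚ ((B₁ : Set (Module.End ℚ A.H1)) ∪ {z})) →
    ∃ q : Polynomial ℚ, Polynomial.aeval z q ∈ B₁ ∧
      Polynomial.aeval ((a : ℂ) * Complex.I) q ≠ Polynomial.aeval ((b : ℂ) * Complex.I) q

/-- **Signature `(1, N - 1)`**: for all `a ∈ S` the eigenspace of `i a` on the tangent space is a simple
module over the algebra of the endomorphisms; the numbers `± i a`, `a ∈ S`, are separated. -/
structure BallType (z : Module.End ℚ A.H1) (S : Finset ℝ) : Prop where
  simple : ∀ a ∈ S, ∀ x y, x ≠ 0 → Eigen A z a x → Eigen A z a y →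
    y ∈ Submodule.span ℂ {w | ∃ P, IsEndo A P ∧ w = A.ext P x}
  separated : ∀ a b : ℝ, (a ∈ S ∨ -a ∈ S) → (b ∈ S ∨ -b ∈ S) → a ≠ b → Separates A z a b

/-- **Division algebras of prime degree**: the commutant of the endomorphisms is a division algebra, of
prime degree `N` over `ℚ[z]`; `± i a` and `± i b` are separated for different `a`, `b` in `S`. -/
structure DivisionType (z : Module.End ℚ A.H1) (S : Finset ℝ) (N : ℕ) : Prop where
  prime : N.Prime
  division : ∀ X, Commutes A X → X ≠ 0 → Function.Injective X
  separated : ∀ a b : ℝ, (a ∈ S ∨ -a ∈ S) → (b ∈ S ∨ -b ∈ S) → a ≠ b → a ≠ -b →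
    Separates A z a b

/-- **Abelian varieties of unitary type.** -/
structure UnitaryType (z : Module.End ℚ A.H1) (S : Finset ℝ) (N : ℕ) : Prop where
  centre : CentreField A z
  degree : HasDegree A z N
  places : Places A z S
  type : BallType A z S ∨ DivisionType A z S N

/-! ### The centre of the Lie algebra of the Hodge group -/

/-- The multilinear forms in `2m` variables in the rational homology. -/
abbrev Form (m : ℕ) : Type := MultilinearMap ℚ (fun _ : Fin m × Fin 2 => A.H1) ℚ

/-- The endomorphism `X` annihilates the form `φ` (as a derivation). -/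
def Annihilates {m : ℕ} (X : Module.End ℚ A.H1) (φ : Form A m) : Prop :=
  ∀ v, ∑ k, φ (Function.update v k (X (v k))) = 0

/-- `X` is in the Lie algebra `𝔤` of the Hodge group: it annihilates all classes in
`H^1(A) ^ {⊗ 2m} (m)` that are Hodge classes and de Rham-Betti classes. -/
def InLie (X : Module.End ℚ A.H1) : Prop :=
  ∀ (m : ℕ) (φ : Form A m), IsHodgeTensor (A.per : A.H1 →+ (Fin g → ℂ)) φ →
    IsDeRhamBettiForm QBar A.dR (2 * Real.pi * Complex.I) m φ → Annihilates A X φ

/-- `X` is an element of the centre of `𝔤`. -/
def InCentre (X : Module.End ℚ A.H1) : Prop := InLie A X ∧ ∀ Y, InLie A Y → Y * X = X * Y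

/-- The algebra of the endomorphisms of `H_1(A, ℂ)`, as matrices for the basis of the lattice. -/
def toC (X : Module.End ℚ A.H1) : Matrix (Fin (2 * g)) (Fin (2 * g)) ℂ :=
  Matrix.of fun i j => (X (Pi.single j 1) i : ℂ)

/-- The endomorphisms which commute with `X` and with the derived algebra of `𝔤` commute with the
centre of `𝔤`. -/
def Generates (X : Module.End ℚ A.H1) : Prop :=
  ∀ T : Module.End ℚ A.H1,
    (∀ Y, InLie A Y → ∀ Z, InLie A Z → T * (Y * Z - Z * Y) = (Y * Z - Z * Y) * T) →
    T * X = X * T → ∀ Z, InCentre A Z → T * Z = Z * T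

/-- All relations `∑ i, x i = 0` between eigenvalues of `X` imply the relation `∑ i, y i = 0` between
the eigenvalues of `Y` for the same eigenvectors. -/
def RelationsOf (X Y : Module.End ℚ A.H1) : Prop :=
  ∀ (r : ℕ) (v : Fin r → Fin (2 * g) → ℂ) (x y : Fin r → ℂ),
    (∀ i, v i ≠ 0 ∧ Matrix.mulVec (toC A X) (v i) = x i • v i ∧
      Matrix.mulVec (toC A Y) (v i) = y i • v i) → ∑ i, x i = 0 → ∑ i, y i = 0

/-- The centre of `𝔤` is rigid: the relations between the eigenvalues of a generating element of the
centre hold for all elements of the centre. -/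
def RigidCentre : Prop :=
  ∀ X, InCentre A X → Generates A X → ∀ Y, InCentre A Y → RelationsOf A X Y

/-- `A` is a factor of `A'` (up to isogeny): `π` is a homomorphism `A' → A`, in terms of the rational
homology, and `ι` is a section of `π`. -/
structure IsFactor {g' : ℕ} (A' : AbVar g') (ι : A.H1 →ₗ[ℚ] A'.H1) (π : A'.H1 →ₗ[ℚ] A.H1) :
    Prop where
  section_ : ∀ v, π (ι v) = v
  homomorphism : ∃ a : Fin g ⊕ Fin g → Fin g' ⊕ Fin g' → QBar, ∀ i w, A.dR i (π w) =
    ∑ j, algebraMap QBar ℂ (a i j) * A'.dR j w

/-- `A` is a factor of an abelian variety `A'` such that the centre of the Lie algebra of the Hodge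
group of `A'` is rigid and acts on `A` through all skew-symmetric elements of `ℚ[z]`. -/
def ControlledCentre (z : Module.End ℚ A.H1) : Prop :=
  ∃ (g' : ℕ) (A' : AbVar g') (ι : A.H1 →ₗ[ℚ] A'.H1) (π : A'.H1 →ₗ[ℚ] A.H1),
    IsFactor A A' ι π ∧ RigidCentre A' ∧
    ∀ x, IsPolynomial A z x → IsSkewSymmetric A x → ∃ X, InCentre A' X ∧ ∀ v, π (X (ι v)) = x v

/-! ### The classes on the powers -/

/-- The inclusion of the rational homology of `A ^ n` in the tangent space. -/
def perPow (n : ℕ) : (Fin n → A.H1) →+ (Fin n → Fin g → ℂ) where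
  toFun v j := A.per (v j)
  map_zero' := by
    funext j
    exact map_zero _
  map_add' u v := by
    funext j
    exact map_add _ _ _

/-- The basis of `H^1_dR(A ^ n / ℚ̄)`. -/
def dRPow (n : ℕ) (i : (Fin g ⊕ Fin g) × Fin n) : (Fin n → A.H1) →ₗ[ℚ] ℂ :=
  (A.dR i.1).comp (LinearMap.proj i.2)

/-- `H^1(A ^ n, ℚ) ^ {⊗ 2m}`: the multilinear forms in `2 m` variables in `H_1(A ^ n, ℚ)`. -/
abbrev TensorPow (m n : ℕ) : Type := MultilinearMap ℚ (fun _ : Fin m × Fin 2 => Fin n → A.H1) ℚ

/-- `H^{2m}(A ^ n, ℚ)`: the alternating forms in `2 m` variables in `H_1(A ^ n, ℚ)`. -/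
abbrev Cohomology (m n : ℕ) : Type := (Fin n → A.H1) [⋀^Fin m × Fin 2]→ₗ[ℚ] ℚ

/-- The bilinear forms on `H_1(A ^ n, ℚ)`. -/
abbrev Bilinear (n : ℕ) : Type := (Fin n → A.H1) →ₗ[ℚ] (Fin n → A.H1) →ₗ[ℚ] ℚ

/-- `φ` is a de Rham-Betti class in `H^1(A ^ n) ^ {⊗ 2m} (m)`. -/
def IsDRB {m n : ℕ} (φ : TensorPow A m n) : Prop :=
  IsDeRhamBettiForm QBar (dRPow A n) (2 * Real.pi * Complex.I) m φ

/-- `φ` is an element of `H^{2m}_Gr(A ^ n, ℚ(m))`. -/
def IsGr {m n : ℕ} (φ : Cohomology A m n) : Prop := IsDRB A φ.toMultilinearMap

/-- `φ` is a linear combination of products of Hodge classes in `H^1(A ^ n) ^ {⊗ 2} (1)`, where the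
`2 m` variables are distributed in some way. -/
def IsDecomposable {m n : ℕ} (φ : TensorPow A m n) : Prop :=
  φ ∈ Submodule.span ℚ {ψ | IsProductOfHodgeBilinear (perPow A n) ψ}

/-- The alternating bilinear form `b` is a Hodge class in `H^2(A ^ n) (1)`, that is (Lefschetz), a
rational multiple of the class of a divisor. -/
def IsDivisorClass {n : ℕ} (b : Bilinear A n) : Prop :=
  IsHodgeBilinear (perPow A n) b ∧ ∀ u, b u u = 0

/-- The product of the values of the bilinear forms `b l` on the vectors `v (l, 0)`, `v (l, 1)`. -/
def prodAt {m n : ℕ} (b : Fin m → Bilinear A n) (v : Fin m × Fin 2 → Fin n → A.H1) : ℚ :=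
  ∏ l, b l (v (l, 0)) (v (l, 1))

/-- The alternating form `ψ` is the product of the classes `b l` of degree two. -/
def IsProduct {m n : ℕ} (b : Fin m → Bilinear A n) (ψ : Cohomology A m n) : Prop :=
  ∀ v, ψ v = ∑ σ : Equiv.Perm (Fin m × Fin 2), ((Equiv.Perm.sign σ : ℤ) : ℚ) * prodAt A b (v ∘ σ)

/-- `φ` is a linear combination of products of divisor classes. -/
def IsSumOfProducts {m n : ℕ} (φ : Cohomology A m n) : Prop :=
  φ ∈ Submodule.span ℚ {ψ | ∃ b : Fin m → Bilinear A n, (∀ l, IsDivisorClass A (b l)) ∧
    IsProduct A b ψ}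

/-! ### The proof -/

variable {A}

theorem comm_iff (X : Module.End ℚ A.H1) : Commutes A X ↔ X ∈ N208.BT.CB A :=
  ⟨fun h P hP => h P (A.mem_EA.1 hP), fun h P hP => h P (A.mem_EA.2 hP)⟩

theorem mem_adjoin (z X : Module.End ℚ A.H1) :
    IsPolynomial A z X ↔ X ∈ (Algebra.adjoin ℚ {z}).toSubmodule := by
  rw [Subalgebra.mem_toSubmodule, Algebra.adjoin_singleton_eq_range_aeval]
  exact ⟨fun ⟨q, hq⟩ => ⟨q, hq.symm⟩, fun ⟨q, hq⟩ => ⟨q, hq.symm⟩⟩

theorem deg_eq {z : Module.End ℚ A.H1} {N : ℕ} (h : HasDegree A z N) :
    finrank ℚ (N208.BT.CB A) = N ^ 2 * finrank ℚ (Algebra.adjoin ℚ {z}) := by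
  have e1 : Submodule.span ℚ {X : Module.End ℚ A.H1 | Commutes A X} = N208.BT.CB A := by
    have h1 : {X : Module.End ℚ A.H1 | Commutes A X} = N208.BT.CB A := Set.ext fun X => comm_iff X
    rw [h1, Submodule.span_eq]
  have e2 : Submodule.span ℚ {X : Module.End ℚ A.H1 | IsPolynomial A z X} =
      (Algebra.adjoin ℚ {z}).toSubmodule := by
    have h1 : {X : Module.End ℚ A.H1 | IsPolynomial A z X} =
        (Algebra.adjoin ℚ {z}).toSubmodule := Set.ext fun X => mem_adjoin z X
    rw [h1, Submodule.span_eq]
  have h1 := h
  unfold HasDegree Set.finrank at h1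
  rw [e1, e2] at h1
  exact h1

theorem CentreField.surj {z : Module.End ℚ A.H1} (h : CentreField A z) : Function.Surjective z := by
  have h1 := h.field z ⟨Polynomial.X, by rw [Polynomial.aeval_X]⟩ h.nonzero
  exact LinearMap.injective_iff_surjective.1 h1

theorem CentreField.cancel {z : Module.End ℚ A.H1} (h : CentreField A z)
    {X Y : Module.End ℚ A.H1} (e : X * z = Y * z) : X = Y := by
  refine LinearMap.ext fun v => ?_
  obtain ⟨w, rfl⟩ := h.surj v
  exact LinearMap.congr_fun e w

theorem UnitaryType.toHF {z : Module.End ℚ A.H1} {S : Finset ℝ} {N : ℕ}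
    (h : UnitaryType A z S N) : N208.LC.HF A z N where
  mem := A.mem_EA.2 h.centre.endo
  cen := fun P hP => h.centre.central P (A.mem_EA.1 hP)
  skew := h.centre.skew
  ne := h.centre.nonzero
  field := fun q hq => h.centre.field _ ⟨q, rfl⟩ hq
  gen := fun P hP hc => h.centre.generates P (A.mem_EA.1 hP) fun Q hQ => hc Q (A.mem_EA.2 hQ)
  deg := deg_eq h.degree

theorem Places.ne {z : Module.End ℚ A.H1} {S : Finset ℝ} (h : Places A z S) (hz : CentreField A z)
    {a : ℝ} (ha : a ∈ S) : a ≠ 0 := by
  rintro rfl
  exact h.disjoint 0 ha (by rwa [neg_zero])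

theorem sep_of {z : Module.End ℚ A.H1} (hz : CentreField A z) {a b : ℝ} (h : Separates A z a b)
    (D₁ : Subalgebra ℚ (Module.End ℚ A.H1)) (h1 : ∀ X ∈ D₁, X ∈ N208.BT.CB A)
    (h2 : ∀ X ∈ N208.BT.CB A, ∃ X' ∈ Algebra.adjoin ℚ ((D₁ : Set (Module.End ℚ A.H1)) ∪ {z}),
      X * z = X' * z) :
    ∃ (q : Polynomial ℚ), ∃ X ∈ D₁, X * z = Polynomial.aeval z q * z ∧
      Polynomial.aeval ((a : ℂ) * Complex.I) q ≠ Polynomial.aeval ((b : ℂ) * Complex.I) q := by
  obtain ⟨q, hq, hne⟩ := h D₁ (fun X hX => (comm_iff X).2 (h1 X hX)) fun X hX => by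
    obtain ⟨X', hX', e⟩ := h2 X ((comm_iff X).1 hX)
    rw [hz.cancel e]
    exact hX'
  exact ⟨q, _, hq, rfl, hne⟩

theorem UnitaryType.toHL {z : Module.End ℚ A.H1} {S : Finset ℝ} {N : ℕ}
    (h : UnitaryType A z S N) : N208.LC.HL A z S where
  hg := by
    have hz := h.centre
    have hgen : ∀ P ∈ A.EA, (∀ Q ∈ A.EA, P * Q = Q * P) →
        ∃ q : Polynomial ℚ, P * z = Polynomial.aeval z q * z := by
      intro P hP hc
      obtain ⟨q, hq⟩ := hz.generates P (A.mem_EA.1 hP) fun Q hQ => hc Q (A.mem_EA.2 hQ)
      exact ⟨q, by rw [hq]⟩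
    rcases h.type with h1 | h1
    · refine N521.LCHBG.main g A z S ⟨fun a ha => ?_, h.places.disjoint, ?_⟩ fun a ha => ?_
      · exact
          { mem := A.mem_EA.2 hz.endo
            cen := fun P hP => hz.central P (A.mem_EA.1 hP)
            skew := hz.skew
            gen := hgen
            ne := h.places.ne hz ha
            ex := ((h.places.indefinite a).1 (Or.inl ha)).1
            simple := fun x y hx h2 h3 => by
              refine (Submodule.span_mono ?_) (h1.simple a ha x y hx h2 h3)
              rintro w ⟨P, hP, rfl⟩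
              exact ⟨P, A.mem_EA.2 hP, rfl⟩ }
      · intro D₁ h2 h3 a b ha hb hab
        exact sep_of hz (h1.separated a b ha hb hab) D₁ h2 h3
      · exact ((h.places.indefinite a).1 (Or.inl ha)).2
    · refine N208.BT.hg_of N208.BT.gpd_main (p := N)
        { mem := A.mem_EA.2 hz.endo
          cen := fun P hP => hz.central P (A.mem_EA.1 hP)
          skew := hz.skew
          gen := hgen
          ne := fun a ha => h.places.ne hz ha
          e1 := fun a ha => ((h.places.indefinite a).1 (Or.inl ha)).1
          e2 := fun a ha => ((h.places.indefinite a).1 (Or.inl ha)).2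
          disj := h.places.disjoint
          sep := fun D₁ h2 h3 a b ha hb hab hab' =>
            sep_of hz (h1.separated a b ha hb hab hab') D₁ h2 h3
          pd := ⟨h1.prime, fun X hX h0 v hv => ?_, ?_⟩ }
      · have h2 := h1.division X ((comm_iff X).2 hX) fun h => h0 (by rw [h, zero_mul])
        have h3 : X (z v) = X 0 := by rw [hv, map_zero]
        exact h2 h3
      · have hinj : Function.Injective (LinearMap.mulRight ℚ z : Module.End ℚ (Module.End ℚ A.H1)) :=
          fun X Y e => hz.cancel e
        rw [(Submodule.equivMapOfInjective _ hinj _).finrank_eq.symm,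
          (Submodule.equivMapOfInjective _ hinj _).finrank_eq.symm]
        exact deg_eq h.degree
  field := fun q hq => h.centre.field _ ⟨q, rfl⟩ hq
  ne := h.places.nonempty
  dfn := fun b hb hb' => (h.places.indefinite b).2 ⟨hb, hb'⟩

theorem ControlledCentre.mem {z : Module.End ℚ A.H1} (h : ControlledCentre A z)
    {q : Polynomial ℚ} (hq : IsSkewSymmetric A (Polynomial.aeval z q)) :
    Polynomial.aeval z q ∈ A.LA := by
  obtain ⟨g', A', ι, π, hf, hr, hc⟩ := h
  obtain ⟨X, hX, hX'⟩ := hc _ ⟨q, rfl⟩ hq
  have h1 : A'.CN ≤ A'.LA := A'.centre_le fun X hX hg Y hY => by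
    refine dom_of_matrix (hr X ⟨hX.1, hX.2⟩ (fun T hT hTX Z hZ => ?_) Y ⟨hY.1, hY.2⟩)
    exact hg T hT hTX Z ⟨hZ.1, hZ.2⟩
  exact N208.LC.mem_LA_of_fac ⟨hf.section_, hf.homomorphism⟩ (h1 ⟨hX.1, hX.2⟩) hX'

/-- **Theorem.** Let `A` be an abelian variety of unitary type, of degree `N`. Let `m` be a natural
number with `2 m < N`, or with `m < N` if `N` is odd; or let `m` be arbitrary and let the centre be
controlled. Then for all `n`

1. every de Rham-Betti class in `H^1(A ^ n) ^ {⊗ 2m} (m)` is a linear combination of products of Hodge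
   classes of degree two;
2. every class in `H^{2m}_Gr(A ^ n, ℚ(m))` is a linear combination of products of divisor classes. -/
theorem result {g : ℕ} (A : AbVar g) (z : Module.End ℚ A.H1) (S : Finset ℝ) (N : ℕ)
    (hA : UnitaryType A z S N) (m n : ℕ)
    (hm : (2 * m < N ∨ (Odd N ∧ m < N)) ∨ ControlledCentre A z) :
    (∀ φ : TensorPow A m n, IsDRB A φ → IsDecomposable A φ) ∧
      ∀ φ : Cohomology A m n, IsGr A φ → IsSumOfProducts A φ := by
  have key : ∀ φ : MultilinearMap ℚ (fun _ : Fin m × Fin 2 => A.H1) ℚ,
      IsDeRhamBettiForm QBar A.dR tau m φ →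
      φ ∈ Submodule.span ℚ {ψ | IsProductOfHodgeBilinear (A.per : A.H1 →+ (Fin g → ℂ)) ψ} := by
    intro φ hφ
    rcases hm with hm | hm
    · exact N208.LC.fin_low hA.toHL hA.toHF hm hφ
    · exact N208.LC.fin_all N297.LCCOREG.main hA.toHL hA.toHF (fun q hq => hm.mem hq) hφ
  have h1 := fun φ hφ => N208.LC.main_pow (A := A) (m := m) (n := n) key φ hφ
  exact ⟨h1, fun φ hφ => N208.LC.alt_span φ (h1 _ hφ)⟩

end Pool.Agent.Results.MP_bf54cf_ag.UnitaryPowers
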